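import Mathlib

set_option autoImplicit false

namespace Pool.Agent.Results.MP_55f31a_lc.LipImpliesLpp

/-- Formulas in negation normal form: literals, constants, and, or, diamond, box. -/
inductive Fm : Type
  | pos : ℕ → Fm
  | neg : ℕ → Fm
  | bot : Fm
  | top : Fm
  | and : Fm → Fm → Fm
  | or : Fm → Fm → Fm
  | dia : Fm → Fm
  | box : Fm → Fm

/-- Negation, by the De Morgan and modal duality laws. -/
def Fm.not : Fm → Fm
  | .pos n => .neg n
  | .neg n => .pos n
  | .bot => .top
  | .top => .bot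
  | .and a b => .or a.not b.not
  | .or a b => .and a.not b.not
  | .dia a => .box a.not
  | .box a => .dia a.not

def Fm.imp (a b : Fm) : Fm := .or a.not b

def Fm.iff (a b : Fm) : Fm := .and (a.imp b) (b.imp a)

/-- Uniform substitution. -/
def Fm.subst (σ : ℕ → Fm) : Fm → Fm
  | .pos n => σ n
  | .neg n => (σ n).not
  | .bot => .bot
  | .top => .top
  | .and a b => .and (a.subst σ) (b.subst σ)
  | .or a b => .or (a.subst σ) (b.subst σ)
  | .dia a => .dia (a.subst σ)
  | .box a => .box (a.subst σ)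

/-- The literals occurring in a formula: `(n, true)` is the variable, `(n, false)` its negation. -/
def Fm.lits : Fm → Set (ℕ × Bool)
  | .pos n => {(n, true)}
  | .neg n => {(n, false)}
  | .bot => ∅
  | .top => ∅
  | .and a b => a.lits ∪ b.lits
  | .or a b => a.lits ∪ b.lits
  | .dia a => a.lits
  | .box a => a.lits

/-- The variables of a formula. -/
def Fm.vars (a : Fm) : Set ℕ := {n | ∃ s, (n, s) ∈ a.lits}

/-- Formulas without modal operators. -/
def Fm.ModalFree : Fm → Prop
  | .and a b => a.ModalFree ∧ b.ModalFree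
  | .or a b => a.ModalFree ∧ b.ModalFree
  | .dia _ => False
  | .box _ => False
  | _ => True

/-- Classical truth value (only used for formulas without modal operators). -/
def Fm.val (v : ℕ → Prop) : Fm → Prop
  | .pos n => v n
  | .neg n => ¬ v n
  | .bot => False
  | .top => True
  | .and a b => a.val v ∧ b.val v
  | .or a b => a.val v ∨ b.val v
  | .dia _ => False
  | .box _ => False

/-- A monotone modal logic. -/
structure MonotoneLogic (L : Set Fm) : Prop where
  taut : ∀ a : Fm, a.ModalFree → (∀ v, a.val v) → a ∈ L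
  dual : (Fm.box (.pos 0)).iff (Fm.dia (Fm.pos 0).not).not ∈ L
  mono : (Fm.dia (.pos 0)).imp (.dia (.or (.pos 0) (.pos 1))) ∈ L
  mp : ∀ a b : Fm, a ∈ L → a.imp b ∈ L → b ∈ L
  subst : ∀ (a : Fm) (σ : ℕ → Fm), a ∈ L → a.subst σ ∈ L
  cong : ∀ a b : Fm, a.iff b ∈ L → (Fm.dia a).iff (.dia b) ∈ L

/-- No negated variable occurs. -/
def Positive (a : Fm) : Prop := ∀ n, (n, false) ∉ a.lits

/-- `L` proves `a(p) → a(p ∨ q)` for distinct fresh variables `q`. -/
def MonotoneIn (L : Set Fm) (a : Fm) : Prop :=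
  ∃ q : ℕ → ℕ, Set.InjOn q a.vars ∧ (∀ n ∈ a.vars, q n ∉ a.vars) ∧
    a.imp (a.subst fun n => .or (.pos n) (.pos (q n))) ∈ L

/-- Lyndon positivity property. -/
def LPP (L : Set Fm) : Prop :=
  ∀ a, MonotoneIn L a → ∃ b, Positive b ∧ a.iff b ∈ L

/-- Lyndon interpolation property. -/
def LIP (L : Set Fm) : Prop :=
  ∀ a b : Fm, a.imp b ∈ L → ∃ c : Fm, c.lits ⊆ a.lits ∩ b.lits ∧ a.imp c ∈ L ∧ c.imp b ∈ L

/-! ### Proof -/

theorem not_not' (a : Fm) : a.not.not = a := by
  induction a <;> simp_all [Fm.not]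

theorem subst_not (σ : ℕ → Fm) (a : Fm) : a.not.subst σ = (a.subst σ).not := by
  induction a <;> simp_all [Fm.not, Fm.subst, not_not']

theorem subst_imp (σ : ℕ → Fm) (a b : Fm) :
    (a.imp b).subst σ = (a.subst σ).imp (b.subst σ) := by
  simp [Fm.imp, Fm.subst, subst_not]

theorem subst_subst (σ τ : ℕ → Fm) (a : Fm) :
    (a.subst σ).subst τ = a.subst (fun n => (σ n).subst τ) := by
  induction a <;> simp_all [Fm.subst, subst_not]

theorem subst_congr (σ τ : ℕ → Fm) (a : Fm) (h : ∀ n ∈ a.vars, σ n = τ n) :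
    a.subst σ = a.subst τ := by
  induction a with
  | pos n => exact h n ⟨true, rfl⟩
  | neg n => exact congrArg Fm.not (h n ⟨false, rfl⟩)
  | bot => rfl
  | top => rfl
  | and a b iha ihb =>
    simp only [Fm.subst]
    rw [iha fun n ⟨s, hs⟩ => h n ⟨s, Or.inl hs⟩, ihb fun n ⟨s, hs⟩ => h n ⟨s, Or.inr hs⟩]
  | or a b iha ihb =>
    simp only [Fm.subst]
    rw [iha fun n ⟨s, hs⟩ => h n ⟨s, Or.inl hs⟩, ihb fun n ⟨s, hs⟩ => h n ⟨s, Or.inr hs⟩]
  | dia a ih => simp only [Fm.subst]; rw [ih h]
  | box a ih => simp only [Fm.subst]; rw [ih h]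

theorem subst_id (a : Fm) : a.subst Fm.pos = a := by
  induction a <;> simp_all [Fm.subst, Fm.not]

def code : Fm → ℕ
  | .pos n => Nat.pair 0 n
  | .neg n => Nat.pair 1 n
  | .bot => Nat.pair 2 0
  | .top => Nat.pair 3 0
  | .and a b => Nat.pair 4 (Nat.pair (code a) (code b))
  | .or a b => Nat.pair 5 (Nat.pair (code a) (code b))
  | .dia a => Nat.pair 6 (code a)
  | .box a => Nat.pair 7 (code a)

theorem code_inj : Function.Injective code := by
  intro a
  induction a with
  | and a b iha ihb =>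
    intro c h
    cases c <;> simp only [code, Nat.pair_eq_pair] at h <;> try omega
    rw [iha h.2.1, ihb h.2.2]
  | or a b iha ihb =>
    intro c h
    cases c <;> simp only [code, Nat.pair_eq_pair] at h <;> try omega
    rw [iha h.2.1, ihb h.2.2]
  | dia a ih =>
    intro c h
    cases c <;> simp only [code, Nat.pair_eq_pair] at h <;> try omega
    rw [ih h.2]
  | box a ih =>
    intro c h
    cases c <;> simp only [code, Nat.pair_eq_pair] at h <;> try omega
    rw [ih h.2]
  | _ =>
    intro c h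
    cases c <;> simp only [code, Nat.pair_eq_pair] at h <;> first | omega | rfl | rw [h.2]

/-- Truth value with modal formulas as atoms. -/
def ev (v : Fm → Prop) : Fm → Prop
  | .pos n => v (.pos n)
  | .neg n => ¬ v (.pos n)
  | .bot => False
  | .top => True
  | .and a b => ev v a ∧ ev v b
  | .or a b => ev v a ∨ ev v b
  | .dia a => v (.dia a)
  | .box a => ¬ v (.dia a.not)

def skel : Fm → Fm
  | .pos n => .pos (code (.pos n))
  | .neg n => .neg (code (.pos n))
  | .bot => .bot
  | .top => .top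
  | .and a b => .and (skel a) (skel b)
  | .or a b => .or (skel a) (skel b)
  | .dia a => .pos (code (.dia a))
  | .box a => .neg (code (.dia a.not))

theorem ev_not (v : Fm → Prop) (a : Fm) : ev v a.not ↔ ¬ ev v a := by
  induction a <;> simp_all [Fm.not, ev, not_not']
  tauto

theorem ev_imp (v : Fm → Prop) (a b : Fm) : ev v (a.imp b) ↔ (ev v a → ev v b) := by
  simp only [Fm.imp, ev, ev_not]; tauto

theorem ev_iff (v : Fm → Prop) (a b : Fm) : ev v (a.iff b) ↔ (ev v a ↔ ev v b) := by
  simp only [Fm.iff, ev, ev_imp]; tauto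

variable {L : Set Fm}

theorem taut0 (hL : MonotoneLogic L) (a : Fm) (h : ∀ v, ev v a) : a ∈ L := by
  have : Nonempty Fm := ⟨.bot⟩
  have e : ∀ b, Function.invFun code (code b) = b := Function.leftInverse_invFun code_inj
  have h1 : ∀ b : Fm, (skel b).ModalFree := by
    intro b; induction b <;> simp_all [skel, Fm.ModalFree]
  have h2 : ∀ (v : ℕ → Prop) (b : Fm), (skel b).val v ↔ ev (fun c => v (code c)) b := by
    intro v b; induction b <;> simp_all [skel, Fm.val, ev]
  have h3 : ∀ b : Fm, (skel b).subst (Function.invFun code) = b := by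
    intro b; induction b <;> simp_all [skel, Fm.subst, Fm.not, not_not']
  rw [← h3 a]
  exact hL.subst _ _ (hL.taut _ (h1 a) fun v => (h2 v a).2 (h _))

theorem taut1 (hL : MonotoneLogic L) {a : Fm} (ha : a ∈ L) (b : Fm)
    (h : ∀ v, ev v a → ev v b) : b ∈ L :=
  hL.mp _ _ ha (taut0 hL _ fun v => (ev_imp v _ _).2 (h v))

theorem taut2 (hL : MonotoneLogic L) {a a' : Fm} (ha : a ∈ L) (ha' : a' ∈ L) (b : Fm)
    (h : ∀ v, ev v a → ev v a' → ev v b) : b ∈ L :=
  hL.mp _ _ ha' (taut1 hL ha _ fun v h1 => (ev_imp v _ _).2 (h v h1))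

theorem imp_trans' (hL : MonotoneLogic L) {a b c : Fm} (h1 : a.imp b ∈ L) (h2 : b.imp c ∈ L) :
    a.imp c ∈ L :=
  taut2 hL h1 h2 _ fun v => by simp only [ev_imp]; tauto

theorem dia_mono (hL : MonotoneLogic L) {a b : Fm} (h : a.imp b ∈ L) :
    (Fm.dia a).imp (.dia b) ∈ L := by
  have h1 := hL.subst _ (fun n => if n = 0 then a else b) hL.mono
  simp only [subst_imp, Fm.subst, if_true, one_ne_zero, if_false] at h1
  have h2 := hL.cong (.or a b) b (taut1 hL h _ fun v => by
    simp only [ev_imp, ev_iff, ev]; tauto)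
  exact taut2 hL h1 h2 _ fun v => by simp only [ev_imp, ev_iff]; tauto

theorem box_mono (hL : MonotoneLogic L) {a b : Fm} (h : a.imp b ∈ L) :
    (Fm.box a).imp (.box b) ∈ L := by
  have h1 : b.not.imp a.not ∈ L := taut1 hL h _ fun v => by
    simp only [ev_imp, ev_not]; tauto
  exact taut1 hL (dia_mono hL h1) _ fun v => by simp only [ev_imp, ev]; tauto

/-- Replace positive and negative literals independently. -/
def sub2 (σ τ : ℕ → Fm) : Fm → Fm
  | .pos n => σ n
  | .neg n => τ n
  | .bot => .bot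
  | .top => .top
  | .and a b => .and (sub2 σ τ a) (sub2 σ τ b)
  | .or a b => .or (sub2 σ τ a) (sub2 σ τ b)
  | .dia a => .dia (sub2 σ τ a)
  | .box a => .box (sub2 σ τ a)

theorem subst_eq (σ : ℕ → Fm) (a : Fm) : a.subst σ = sub2 σ (fun n => (σ n).not) a := by
  induction a <;> simp_all [Fm.subst, sub2]

theorem sub2_subst (σ τ ρ : ℕ → Fm) (a : Fm) :
    (sub2 σ τ a).subst ρ = sub2 (fun n => (σ n).subst ρ) (fun n => (τ n).subst ρ) a := by
  induction a <;> simp_all [Fm.subst, sub2]

theorem sub2_mono (hL : MonotoneLogic L) {σ τ σ' τ' : ℕ → Fm} (h1 : ∀ n, (σ n).imp (σ' n) ∈ L)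
    (h2 : ∀ n, (τ n).imp (τ' n) ∈ L) (a : Fm) : (sub2 σ τ a).imp (sub2 σ' τ' a) ∈ L := by
  induction a with
  | pos n => exact h1 n
  | neg n => exact h2 n
  | bot => exact taut0 hL _ fun v => (ev_imp v _ _).2 id
  | top => exact taut0 hL _ fun v => (ev_imp v _ _).2 id
  | and a b iha ihb => exact taut2 hL iha ihb _ fun v => by simp only [ev_imp, sub2, ev]; tauto
  | or a b iha ihb => exact taut2 hL iha ihb _ fun v => by simp only [ev_imp, sub2, ev]; tauto
  | dia a ih => exact dia_mono hL ih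
  | box a ih => exact box_mono hL ih

theorem lits_sub2 (σ τ : ℕ → Fm) (S : Set (ℕ × Bool)) (h1 : ∀ n, (σ n).lits ⊆ S)
    (h2 : ∀ n, (τ n).lits ⊆ S) (a : Fm) : (sub2 σ τ a).lits ⊆ S := by
  induction a <;> simp_all [Fm.lits, sub2]

theorem positive_subst (f : ℕ → ℕ) (a : Fm) (h : Positive a) :
    Positive (a.subst fun n => .pos (f n)) := by
  unfold Positive at *
  induction a with
  | neg n => exact absurd rfl (h n)
  | and a b iha ihb =>
    simp only [Fm.subst, Fm.lits, Set.mem_union, not_or] at *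
    exact fun n => ⟨iha (fun m => (h m).1) n, ihb (fun m => (h m).2) n⟩
  | or a b iha ihb =>
    simp only [Fm.subst, Fm.lits, Set.mem_union, not_or] at *
    exact fun n => ⟨iha (fun m => (h m).1) n, ihb (fun m => (h m).2) n⟩
  | dia a ih => exact ih h
  | box a ih => exact ih h
  | _ => simp [Fm.subst, Fm.lits]

theorem mono_subst (hL : MonotoneLogic L) {a : Fm} (ha : MonotoneIn L a) (σ τ : ℕ → Fm)
    (h : ∀ n, (σ n).imp (τ n) ∈ L) : (a.subst σ).imp (a.subst τ) ∈ L := by
  classical
  obtain ⟨q, hq, hf, hm⟩ := ha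
  have h1 := hL.subst _
    (fun m => if m ∈ a.vars then σ m else τ (Function.invFunOn q a.vars m)) hm
  rw [subst_imp, subst_subst, subst_congr _ σ a fun n hn => if_pos hn] at h1
  have e := subst_congr (fun n => Fm.subst
      (fun m => if m ∈ a.vars then σ m else τ (Function.invFunOn q a.vars m))
      ((Fm.pos n).or (Fm.pos (q n)))) (fun n => .or (σ n) (τ n)) a fun n hn => by
      simp only [Fm.subst, if_pos hn, if_neg (hf n hn), hq.leftInvOn_invFunOn hn]
  rw [e] at h1
  refine imp_trans' hL h1 ?_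
  rw [subst_eq, subst_eq]
  refine sub2_mono hL (fun n => taut1 hL (h n) _ fun v => ?_)
    (fun n => taut1 hL (h n) _ fun v => ?_) a
  · simp only [ev_imp, ev]; tauto
  · simp only [ev_imp, ev_not, ev]; tauto

/-- Every monotone modal logic (normal or not) with LIP has LPP. -/
theorem result (L : Set Fm) (hL : MonotoneLogic L) (hI : LIP L) : LPP L := by
  intro a ha
  let A := sub2 (fun n => .and (.pos (2 * n + 1)) (.pos (2 * n))) (fun n => .neg (2 * n + 1)) a
  let B := a.subst fun n => .pos (2 * n)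
  have h1 : A.imp (a.subst fun n => .and (.pos (2 * n + 1)) (.pos (2 * n))) ∈ L := by
    rw [subst_eq]
    refine sub2_mono hL (fun n => taut0 hL _ fun v => (ev_imp v _ _).2 id)
      (fun n => taut0 hL _ fun v => ?_) a
    simp only [ev_imp, ev_not, ev]; tauto
  have h2 : A.imp B ∈ L := imp_trans' hL h1 (mono_subst hL ha _ _ fun n =>
    taut0 hL _ fun v => by simp only [ev_imp, ev]; tauto)
  obtain ⟨c, hc, h3, h4⟩ := hI A B h2
  have hA : A.lits ⊆ {z | z.2 = true ∨ z.1 % 2 = 1} := by
    refine lits_sub2 _ _ _ (fun n => ?_) (fun n => ?_) a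
    · rintro z (rfl | rfl) <;> exact Or.inl rfl
    · rintro z rfl
      exact Or.inr (by show (2 * n + 1) % 2 = 1; omega)
  have hB : B.lits ⊆ {z | z.1 % 2 = 0} := by
    simp only [B]
    rw [subst_eq]
    refine lits_sub2 _ _ _ (fun n => ?_) (fun n => ?_) a
    · rintro z rfl
      show (2 * n) % 2 = 0
      omega
    · rintro z rfl
      show (2 * n) % 2 = 0
      omega
  have hpos : Positive c := by
    intro n hn
    have k1 : (false = true) ∨ n % 2 = 1 := hA (hc hn).1
    have k2 : n % 2 = 0 := hB (hc hn).2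
    rcases k1 with k | k
    · exact absurd k (by simp)
    · omega
  refine ⟨c.subst fun m => .pos (m / 2), positive_subst _ c hpos, ?_⟩
  have h5 := hL.subst _ (fun m => .pos (m / 2)) h3
  have h6 := hL.subst _ (fun m => .pos (m / 2)) h4
  rw [subst_imp] at h5 h6
  have e1 : ∀ n, (2 * n + 1) / 2 = n := fun n => by omega
  have e2 : ∀ n, (2 * n) / 2 = n := fun n => by omega
  have hB' : B.subst (fun m => .pos (m / 2)) = a := by
    simp only [B, subst_subst, Fm.subst, e2]
    exact subst_id a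
  have hA' : a.imp (A.subst fun m => .pos (m / 2)) ∈ L := by
    simp only [A, sub2_subst, Fm.subst, e1, e2]
    have := sub2_mono hL (σ := Fm.pos) (τ := fun n => (Fm.pos n).not)
      (σ' := fun n => .and (.pos n) (.pos n)) (τ' := fun n => (Fm.pos n).not)
      (fun n => taut0 hL _ fun v => by simp only [ev_imp, ev]; tauto)
      (fun n => taut0 hL _ fun v => (ev_imp v _ _).2 id) a
    rwa [← subst_eq, subst_id] at this
  rw [hB'] at h6
  exact taut2 hL (imp_trans' hL hA' h5) h6 _ fun v => by simp only [ev_imp, ev_iff]; tauto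

end Pool.Agent.Results.MP_55f31a_lc.LipImpliesLpp
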